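import Pool.Agent.W728.LH.Stms

/-! Project LH, part MAIN: tuples satisfying `Gen` generate. -/

set_option autoImplicit false

namespace Pool.Agent.W935.LH

open MvPolynomial Pool.Agent.W728.LH

section
variable {P : Type} [Field P] {m : ℕ}

lemma isC_const (r : P) : IsC (algebraMap P (MvPolynomial (Fin m) P) r) := by
  by_cases h : r = 0
  · left; rw [h, map_zero]
  · right; exact (IsUnit.mk0 r h).map _

lemma const_isC {h : MvPolynomial (Fin m) P} (hh : IsC h) : ∃ r : P, h = C r := by
  rcases hh with h0 | h0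
  · exact ⟨0, by rw [h0, map_zero]⟩
  · obtain ⟨r, -, hr⟩ := MvPolynomial.isUnit_iff_eq_C_of_isReduced.1 h0
    exact ⟨r, hr⟩

lemma deg_pos {x : MvPolynomial (Fin m) P} (hx : ¬ IsC x) : 1 ≤ x.totalDegree := by
  by_contra h
  push Not at h
  have h0 : x.totalDegree = 0 := by omega
  rw [MvPolynomial.totalDegree_eq_zero_iff_eq_C] at h0
  apply hx
  rw [h0]
  exact isC_const _

lemma ne_zero_of {x : MvPolynomial (Fin m) P} (hx : ¬ IsC x) : x ≠ 0 :=
  fun h => hx (Or.inl h)

lemma deg_pow {x : MvPolynomial (Fin m) P} (hx : x ≠ 0) (N : ℕ) :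
    (x ^ N).totalDegree = N * x.totalDegree := by
  induction N with
  | zero => simp
  | succ N ih =>
    rw [pow_succ, MvPolynomial.totalDegree_mul_of_isDomain (pow_ne_zero N hx) hx, ih]
    ring

lemma trans0 {x : MvPolynomial (Fin m) P} (hx : ¬ IsC x) : Transcendental P x := by
  intro h
  exact hx (Or.inr ((isAlgebraic_iff_isIntegral.1 h).isUnit (ne_zero_of hx)))

variable {S : MvPolynomial (Fin m) P → MvPolynomial (Fin m) P → Prop}
  {x : ℕ → MvPolynomial (Fin m) P}

/-- the subalgebras -/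
def Bs (hG : Gen S m x) (k : ℕ) (hk : k < m) : Subalgebra P (MvPolynomial (Fin m) P) where
  carrier := {g | SS S x k g}
  mul_mem' := fun {a b} ha hb => ((hG.2.2.1 k hk).2.2 a b ha hb).2
  add_mem' := fun {a b} ha hb => ((hG.2.2.1 k hk).2.2 a b ha hb).1
  algebraMap_mem' := fun r => (hG.2.2.1 k hk).1 _ (isC_const r)

/-- the subalgebras, for all indices -/
noncomputable def BB (hG : Gen S m x) (k : ℕ) : Subalgebra P (MvPolynomial (Fin m) P) :=
  if hk : k < m then Bs hG k hk else ⊤

lemma mem_BB (hG : Gen S m x) {k : ℕ} (hk : k < m) (g : MvPolynomial (Fin m) P) :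
    g ∈ BB hG k ↔ SS S x k g := by
  unfold BB
  rw [dif_pos hk]
  rfl

lemma x_mem (hG : Gen S m x) {k : ℕ} (hk : k < m) : x k ∈ BB hG k :=
  (mem_BB hG hk _).2 (hG.2.2.1 k hk).2.1

lemma BB_mono (hG : Gen S m x) {k : ℕ} (hk : k < m - 1) : BB hG k ≤ BB hG (k + 1) := by
  intro g hg
  rw [mem_BB hG (by omega)] at hg ⊢
  exact (hG.2.2.2.1 k hk).1 g hg

lemma F_mem (hG : Gen S m x) (hm : 0 < m) {k : ℕ} (hk : k < m) (f : MvPolynomial (Fin m) P)
    (hf : S (x 0) f) : f ∈ BB hG k := by
  induction k with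
  | zero => exact (mem_BB hG hm f).2 hf
  | succ k ih => exact BB_mono hG (by omega) (ih (by omega))

lemma pow_mem' (hG : Gen S m x) (hm : 0 < m) (N : ℕ) : S (x 0) (x 0 ^ N) :=
  (mem_BB hG hm _).1 (Subalgebra.pow_mem _ (x_mem hG hm) N)

/-- the first subalgebra -/
lemma B0_le (hG : Gen S m x) (g : MvPolynomial (Fin m) P) (hg : S (x 0) g) :
    g ∈ Algebra.adjoin P {x 0} := by
  have key : ∀ n : ℕ, ∀ g : MvPolynomial (Fin m) P, g.totalDegree < n → S (x 0) g →
      g ∈ Algebra.adjoin P {x 0} := by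
    intro n
    induction n with
    | zero => intro g hg _; omega
    | succ n ih =>
      intro g hgn hg
      obtain ⟨d, h, hd, hh, e⟩ := hG.2.1 g hg
      obtain ⟨r, rfl⟩ := const_isC hd
      have hC : (C r : MvPolynomial (Fin m) P) ∈ Algebra.adjoin P {x 0} :=
        Subalgebra.algebraMap_mem _ r
      by_cases h0 : h = 0
      · rw [e, h0, mul_zero, add_zero]
        exact hC
      · have h1 : (x 0 * h).totalDegree = (x 0).totalDegree + h.totalDegree :=
          MvPolynomial.totalDegree_mul_of_isDomain (ne_zero_of hG.1) h0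
        have h2 : x 0 * h = g - C r := by rw [e]; ring
        have h3 : (x 0 * h).totalDegree ≤ g.totalDegree := by
          rw [h2]
          refine (MvPolynomial.totalDegree_sub _ _).trans ?_
          rw [MvPolynomial.totalDegree_C]
          simp
        have h4 := deg_pos hG.1
        have h5 := ih h (by omega) hh
        rw [e]
        exact Subalgebra.add_mem _ hC (Subalgebra.mul_mem _
          (Algebra.subset_adjoin (Set.mem_singleton _)) h5)
  exact key _ g (Nat.lt_succ_self _) hg

lemma transk (hG : Gen S m x) (hm : 0 < m) {k : ℕ} (hk : k < m - 1) :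
    Transcendental (BB hG k) (x (k + 1)) := by
  rintro ⟨q, hq0, hq⟩
  apply hq0
  apply Polynomial.eq_zero_of_infinite_isRoot
  -- every element of `F` is a root
  have hroot : ∀ f : MvPolynomial (Fin m) P, (hf : S (x 0) f) →
      q.IsRoot ⟨f, F_mem hG hm (by omega) f hf⟩ := by
    intro f hf
    have hfB : f ∈ BB hG k := F_mem hG hm (by omega) f hf
    have hfC : f ∈ BB hG (k + 1) := BB_mono hG hk hfB
    have hxC : x (k + 1) ∈ BB hG (k + 1) := x_mem hG (by omega)
    let i : BB hG k →+* BB hG (k + 1) := (Subalgebra.inclusion (BB_mono hG hk)).toRingHom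
    obtain ⟨h, hh⟩ := Polynomial.sub_dvd_eval_sub (⟨f, hfC⟩ : BB hG (k + 1)) ⟨x (k + 1), hxC⟩
      (q.map i)
    have hv : ∀ (a : MvPolynomial (Fin m) P) (ha : a ∈ BB hG (k + 1)),
        (((q.map i).eval ⟨a, ha⟩ : BB hG (k + 1)) : MvPolynomial (Fin m) P) =
          Polynomial.aeval a q := by
      intro a ha
      have := Polynomial.hom_eval₂ (q) i (BB hG (k + 1)).val.toRingHom ⟨a, ha⟩
      rw [Polynomial.eval_map]
      exact this
    have h1 : Polynomial.aeval f q = (f - x (k + 1)) * h := by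
      have h2 := congrArg (fun z : BB hG (k + 1) => (z : MvPolynomial (Fin m) P)) hh
      simp only [Subalgebra.coe_sub, Subalgebra.coe_mul] at h2
      rw [hv, hv, hq, sub_zero] at h2
      exact h2
    have h3 : Polynomial.aeval f q ∈ BB hG k := by
      have := ((q.eval ⟨f, hfB⟩ : BB hG k)).2
      have e : (((q.eval ⟨f, hfB⟩ : BB hG k)) : MvPolynomial (Fin m) P) =
          Polynomial.aeval f q := by
        have := Polynomial.aeval_algebraMap_apply (MvPolynomial (Fin m) P)
          (⟨f, hfB⟩ : BB hG k) q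
        rw [Polynomial.coe_aeval_eq_eval] at this
        exact this.symm
      rw [← e]
      exact this
    have h4 : (x (k + 1) - f) * (-(h : MvPolynomial (Fin m) P)) = Polynomial.aeval f q := by
      rw [h1]; ring
    have h5 := (hG.2.2.2.1 k hk).2.2 f (-(h : MvPolynomial (Fin m) P)) hf
      ((mem_BB hG (by omega) _).1 (Subalgebra.neg_mem _ h.2))
      (by rw [h4]; exact (mem_BB hG (by omega) _).1 h3)
    rw [h5, mul_zero] at h4
    have e : (((q.eval ⟨f, hfB⟩ : BB hG k)) : MvPolynomial (Fin m) P) = Polynomial.aeval f q := by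
      have := Polynomial.aeval_algebraMap_apply (MvPolynomial (Fin m) P)
        (⟨f, hfB⟩ : BB hG k) q
      rw [Polynomial.coe_aeval_eq_eval] at this
      exact this.symm
    apply Subtype.ext
    change (((q.eval ⟨f, hfB⟩ : BB hG k)) : MvPolynomial (Fin m) P) = 0
    rw [e, ← h4]
  have hinj : Function.Injective fun N : ℕ =>
      (⟨x 0 ^ N, F_mem hG hm (by omega) _ (pow_mem' hG hm N)⟩ : BB hG k) := by
    intro a b hab
    have h1 : x 0 ^ a = x 0 ^ b := congrArg (fun z : BB hG k => (z : MvPolynomial (Fin m) P)) hab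
    have h2 := congrArg MvPolynomial.totalDegree h1
    rw [deg_pow (ne_zero_of hG.1), deg_pow (ne_zero_of hG.1)] at h2
    exact Nat.eq_of_mul_eq_mul_right (deg_pos hG.1) h2
  refine Set.infinite_of_injective_forall_mem hinj fun N => ?_
  exact hroot _ (pow_mem' hG hm N)

end

theorem t_MAIN (h1 : STEP_stmt) (h2 : ALG_stmt) : MAIN_stmt := by
  intro P _ m hm S x hG
  have hall : ∀ k < m, ∀ g ∈ BB hG k, g ∈ Algebra.adjoin P {h | ∃ k < m, h = x k} := by
    intro k
    induction k with
    | zero =>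
      intro _ g hg
      refine Algebra.adjoin_mono ?_ (B0_le hG g ((mem_BB hG hm g).1 hg))
      intro h hh
      rw [Set.mem_singleton_iff] at hh
      exact ⟨0, hm, hh⟩
    | succ k ih =>
      intro hk g hg
      have hk1 : k < m - 1 := by omega
      have halg := h2 P m x (BB hG) (fun k hk => x_mem hG hk) (fun k hk => BB_mono hG hk)
        (trans0 hG.1) (fun k hk => transk hG hm hk) k hk1 g hg
      obtain ⟨p, hp⟩ := h1 P (MvPolynomial (Fin m) P) MvPolynomial.totalDegree
        MvPolynomial.totalDegree_zero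
        (fun u v hu hv => MvPolynomial.totalDegree_mul_of_isDomain hu hv)
        (fun u v => MvPolynomial.totalDegree_add u v) (fun u => MvPolynomial.totalDegree_neg u)
        (BB hG k) (BB hG (k + 1)) (BB_mono hG hk1) (x (k + 1)) (x_mem hG hk)
        {f | S (x 0) f} (fun f hf => F_mem hG hm (by omega) f hf)
        ((mem_BB hG hm 0).1 (Subalgebra.zero_mem _))
        (fun N => ⟨x 0 ^ N, pow_mem' hG hm N, by
          rw [deg_pow (ne_zero_of hG.1)]
          exact Nat.le_mul_of_pos_right N (deg_pos hG.1)⟩)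
        (fun f hf g hg => by
          obtain ⟨d, h, hd, hh, e⟩ := (hG.2.2.2.1 k hk1).2.1 f g hf ((mem_BB hG hk g).1 hg)
          exact ⟨d, (mem_BB hG (by omega) d).2 hd, h, (mem_BB hG hk h).2 hh, e⟩)
        (fun f hf h hh hh2 => (hG.2.2.2.1 k hk1).2.2 f h hf ((mem_BB hG hk h).1 hh)
          ((mem_BB hG (by omega) _).1 hh2))
        g hg halg
      rw [hp, Polynomial.eval₂_eq_sum_range]
      refine Subalgebra.sum_mem _ fun i _ => Subalgebra.mul_mem _ ?_ (Subalgebra.pow_mem _ ?_ _)
      · exact ih (by omega) _ (p.coeff i).2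
      · exact Algebra.subset_adjoin ⟨k + 1, hk, rfl⟩
  rw [eq_top_iff]
  intro g _
  exact hall (m - 1) (by omega) g ((mem_BB hG (by omega) g).2 (hG.2.2.2.2 g))

end Pool.Agent.W935.LH
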